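import Pool.Agent.V8H55.LD.Fin
import Pool.Agent.V8H52.LD.RS1

/-!
# Average-case lower bound for the discrepancy of lattice point sets

For every `χ < 1` there is a constant `C > 0` such that for every `N` at least `χ N^d` of the
tuples `a` satisfy `D_N(a) ≥ C (log N)^(d-1) log log N / N`.
-/

set_option autoImplicit false

open Finset

namespace Pool.Agent.Results.MP_6b2836_nt.AverageLowerBound

open Pool.Agent.V8H55.LD

open Classical in
/-- Let `d ≥ 2` and `χ < 1`. There is `C > 0` such that for every `N`, at least `χ N^d` of the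
tuples `a ∈ {0, …, N-1}^d` satisfy `D_N(a) ≥ C (log N)^(d-1) log log N / N`. -/
theorem result (d : ℕ) (hd : 2 ≤ d) (χ : ℝ) (hχ : χ < 1) : ∃ C : ℝ, 0 < C ∧ ∀ N : ℕ,
    χ * (N : ℝ) ^ d ≤
      (#{a : Fin d → Fin N | C * (Real.log N ^ (d - 1) * Real.log (Real.log N)) / N ≤ disc a} : ℝ) :=
  main_full Pool.Agent.V8H52.LD.realStm_one d hd χ hχ

end Pool.Agent.Results.MP_6b2836_nt.AverageLowerBound
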